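import Pool.Agent.N875.K17.Stm
import Pool.Agent.N717.QB.Tor

/-!
# K17-TOR: the torsion of `y² = x (x + 1) (x - 16)` over the quadratic fields is of order four
-/

set_option autoImplicit false

open NumberField IsDedekindDomain WeierstrassCurve

namespace Pool.Agent.N849.K17

open scoped Classical

open Pool.Agent.TH841.SH (IsR)
open Pool.Agent.N875.P17 (Em EQm)
open Pool.Agent.N871.S17 (WN vr WN_Δ_ne no_odd Em_delta_ne)
open Pool.Agent.N717.QB (card_four finite_tors torsEquiv two_card four_cases fg_of)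
open Pool.Agent.Y682.XF (base)
open Pool.Agent.Y700 (VR)
open Pool.Agent.N875.K17

section fld

variable {m : ℤ} {K : Type} [Field K] [NumberField K] {r : K}

lemma m_not_sq (hm : Squarefree m) (h1 : m ≠ 1) (a : ℚ) : a ^ 2 ≠ m := by
  intro h
  have e5 : IsSquare (m : ℚ) := ⟨a, by rw [← h, pow_two]⟩
  rw [Rat.isSquare_intCast_iff] at e5
  obtain ⟨x, hx⟩ := e5
  have e6 : IsUnit x := hm x (by rw [hx])
  rcases Int.isUnit_iff.1 e6 with h | h <;> rw [h] at hx <;> apply h1 <;> rw [hx] <;> norm_num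

lemma uniq0 (h : Qd m K r) (hm : Squarefree m) (h1 : m ≠ 1) {a b : ℚ}
    (e : (a : K) + (b : K) * r = 0) : a = 0 ∧ b = 0 := by
  have hb : b = 0 := by
    by_contra hb
    have hbK : (b : K) ≠ 0 := by exact_mod_cast hb
    have hr : r = ((-a / b : ℚ) : K) := by
      push_cast
      field_simp
      linear_combination e
    have h2 := h.hr
    rw [hr] at h2
    exact m_not_sq hm h1 (-a / b) (by exact_mod_cast h2)
  rw [hb] at e
  refine ⟨?_, hb⟩
  have : (a : K) = 0 := by simpa using e
  exact_mod_cast this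

lemma uniq (h : Qd m K r) (hm : Squarefree m) (h1 : m ≠ 1) {a b c d : ℚ}
    (e : (a : K) + (b : K) * r = (c : K) + (d : K) * r) : a = c ∧ b = d := by
  have := uniq0 h hm h1 (a := a - c) (b := b - d) (by push_cast; linear_combination e)
  exact ⟨sub_eq_zero.1 this.1, sub_eq_zero.1 this.2⟩

/-- the rational part -/
noncomputable def re (h : Qd m K r) (x : K) : ℚ := (h.hK x).choose

/-- the irrational part -/
noncomputable def im (h : Qd m K r) (x : K) : ℚ := (h.hK x).choose_spec.choose

lemma spec (h : Qd m K r) (x : K) : x = (re h x : K) + (im h x : K) * r :=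
  (h.hK x).choose_spec.choose_spec

lemma re_im (h : Qd m K r) (hm : Squarefree m) (h1 : m ≠ 1) {x : K} {a b : ℚ}
    (e : x = (a : K) + (b : K) * r) : re h x = a ∧ im h x = b :=
  uniq h hm h1 ((spec h x).symm.trans e)

/-- the conjugation -/
noncomputable def cj (h : Qd m K r) (hm : Squarefree m) (h1 : m ≠ 1) : K →+* K where
  toFun x := (re h x : K) - (im h x : K) * r
  map_one' := by
    obtain ⟨e1, e2⟩ := re_im h hm h1 (x := 1) (a := 1) (b := 0) (by simp)
    rw [e1, e2]; simp
  map_zero' := by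
    obtain ⟨e1, e2⟩ := re_im h hm h1 (x := 0) (a := 0) (b := 0) (by simp)
    rw [e1, e2]; simp
  map_add' x y := by
    obtain ⟨e1, e2⟩ := re_im h hm h1 (x := x + y) (a := re h x + re h y) (b := im h x + im h y) (by
      have hx := spec h x
      have hy := spec h y
      push_cast
      linear_combination hx + hy)
    rw [e1, e2]
    push_cast
    ring
  map_mul' x y := by
    have hr := h.hr
    have hx := spec h x
    have hy := spec h y
    obtain ⟨e1, e2⟩ := re_im h hm h1 (x := x * y) (a := re h x * re h y + m * (im h x * im h y))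
      (b := re h x * im h y + im h x * re h y) (by
        generalize re h x = a at *
        generalize im h x = b at *
        generalize re h y = c at *
        generalize im h y = d at *
        subst hx
        subst hy
        push_cast
        linear_combination (b * d : K) * hr)
    rw [e1, e2]
    push_cast
    linear_combination (-(im h x : K) * im h y) * hr

lemma cj_apply (h : Qd m K r) (hm : Squarefree m) (h1 : m ≠ 1) (x : K) :
    cj h hm h1 x = (re h x : K) - (im h x : K) * r := rfl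

lemma cj_of (h : Qd m K r) (hm : Squarefree m) (h1 : m ≠ 1) {x : K} {a b : ℚ}
    (e : x = (a : K) + (b : K) * r) : cj h hm h1 x = (a : K) - (b : K) * r := by
  obtain ⟨e1, e2⟩ := re_im h hm h1 e
  rw [cj_apply, e1, e2]

lemma cj_cj (h : Qd m K r) (hm : Squarefree m) (h1 : m ≠ 1) (x : K) :
    cj h hm h1 (cj h hm h1 x) = x := by
  rw [cj_of h hm h1 (x := cj h hm h1 x) (a := re h x) (b := -im h x)
    (by rw [cj_apply]; push_cast; ring)]
  push_cast
  have := spec h x
  linear_combination -this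

lemma cj_fix (h : Qd m K r) (hm : Squarefree m) (h1 : m ≠ 1) {x : K}
    (e : cj h hm h1 x = x) : ∃ a : ℚ, x = a := by
  refine ⟨re h x, ?_⟩
  have h2 := spec h x
  have e3 : (re h x : K) + ((-im h x : ℚ) : K) * r = (re h x : K) + (im h x : K) * r := by
    rw [← h2]
    conv_rhs => rw [← e]
    rw [cj_apply]
    push_cast
    ring
  have h4 := (uniq h hm h1 e3).2
  have h5 : im h x = 0 := by linarith
  rw [h5] at h2
  rw [h2]
  have : re h x = re h x := rfl
  conv_lhs => rw [Rat.cast_zero, zero_mul, add_zero]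
  rw [← h2]

lemma cj_neg (h : Qd m K r) (hm : Squarefree m) (h1 : m ≠ 1) {x : K}
    (e : cj h hm h1 x = -x) : ∃ b : ℚ, x = b * r := by
  refine ⟨im h x, ?_⟩
  have h2 := spec h x
  have e3 : (re h x : K) + ((-im h x : ℚ) : K) * r = ((-re h x : ℚ) : K) + ((-im h x : ℚ) : K) * r := by
    have h6 : (re h x : K) - (im h x : K) * r = -x := by rw [← e, cj_apply]
    push_cast
    linear_combination h6 - h2
  have h4 := (uniq h hm h1 e3).1
  have h5 : re h x = 0 := by linarith
  rw [h5] at h2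
  rw [Rat.cast_zero, zero_add] at h2
  exact h2

/-- rational numbers which are squares in `K` -/
theorem sq_cases (h : Qd m K r) (hm : Squarefree m) (h1 : m ≠ 1) {q : ℚ}
    (hz : IsSquare ((q : ℚ) : K)) : (∃ a : ℚ, a ^ 2 = q) ∨ ∃ b : ℚ, m * b ^ 2 = q := by
  obtain ⟨z, hz⟩ := hz
  obtain ⟨a, b, hab⟩ := h.hK z
  have hr := h.hr
  have e1 : ((q : ℚ) : K) + ((0 : ℚ) : K) * r = ((a ^ 2 + m * b ^ 2 : ℚ) : K) +
      ((2 * a * b : ℚ) : K) * r := by
    push_cast
    rw [hz, hab]
    linear_combination (b : K) ^ 2 * hr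
  obtain ⟨e2, e3⟩ := uniq h hm h1 e1
  have e4 : a * b = 0 := by linarith
  rcases mul_eq_zero.1 e4 with h0 | h0
  · right
    refine ⟨b, ?_⟩
    rw [e2, h0]; ring
  · left
    refine ⟨a, ?_⟩
    rw [e2, h0]; ring

lemma neg_one_not_sq (h : Qd m K r) (hm : Squarefree m) (h1 : m ≠ 1) (h2 : m ≠ -1) :
    ¬ IsSquare (-1 : K) := by
  intro hs
  have hs' : IsSquare (((-1 : ℚ)) : K) := by
    push_cast; exact hs
  rcases sq_cases h hm h1 hs' with ⟨a, ha⟩ | ⟨b, hb⟩
  · nlinarith [sq_nonneg a]
  · have h3 : IsSquare (((-m : ℤ)) : ℚ) := ⟨m * b, by push_cast; linear_combination (-m : ℚ) * hb⟩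
    rw [Rat.isSquare_intCast_iff] at h3
    obtain ⟨x, hx⟩ := h3
    have e6 : IsUnit x := hm x ⟨-1, by linarith⟩
    rcases Int.isUnit_iff.1 e6 with h | h <;> rw [h] at hx <;> apply h2 <;> linarith

lemma sq17 (h : Qd m K r) (hm : Squarefree m) (h1 : m ≠ 1) (h2 : m ≠ 17) :
    ¬ IsSquare (17 : K) := by
  intro hs
  have hs' : IsSquare (((17 : ℚ)) : K) := by
    push_cast; exact hs
  rcases sq_cases h hm h1 hs' with ⟨a, ha⟩ | ⟨b, hb⟩
  · exact Pool.Agent.N871.S17.nsq17 ⟨a, by rw [← ha]; ring⟩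
  · have h3 : IsSquare (((17 * m : ℤ)) : ℚ) := ⟨m * b, by push_cast; linear_combination (-m : ℚ) * hb⟩
    rw [Rat.isSquare_intCast_iff] at h3
    obtain ⟨x, hx⟩ := h3
    have hp : Prime (17 : ℤ) := by
      have := Nat.prime_iff_prime_int.1 (by norm_num : Nat.Prime 17)
      exact_mod_cast this
    have hd : (17 : ℤ) ∣ x := by
      have : (17 : ℤ) ∣ x * x := ⟨m, hx.symm⟩
      rcases hp.dvd_mul.1 this with h | h <;> exact h
    obtain ⟨j, rfl⟩ := hd
    have h4 : m = 17 * (j * j) := by linarith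
    have e6 : IsUnit j := hm j ⟨17, by rw [h4]; ring⟩
    rcases Int.isUnit_iff.1 e6 with h | h <;> rw [h] at h4 <;> apply h2 <;> linarith

end fld

section odd

variable {m : ℤ} {K : Type} [Field K] [NumberField K] {r : K}

/-- the map from the rational points -/
noncomputable def up (K : Type) [Field K] [NumberField K] (m : ℤ) :
    (EQm m).toAffine.Point →+ ((Em m).map (Int.castRingHom K)).toAffine.Point :=
  Affine.Point.map (W' := Em m) (S := ℚ) (F := ℚ) (K := K) (Algebra.ofId ℚ K)

lemma up_inj (K : Type) [Field K] [NumberField K] (m : ℤ) : Function.Injective (up K m) :=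
  Affine.Point.map_injective (W' := Em m) (S := ℚ) (F := ℚ) (K := K) (Algebra.ofId ℚ K)

lemma ns_up {x y : ℚ} (h : ((Em m).map (Int.castRingHom K)).toAffine.Nonsingular (x : K) (y : K)) :
    (EQm m).toAffine.Nonsingular x y :=
  (Affine.baseChange_nonsingular (W := Em m) (S := ℚ) (A := ℚ) (B := K) (f := Algebra.ofId ℚ K)
    (algebraMap ℚ K).injective x y).1 h

lemma up_some {x y : ℚ} (h : ((Em m).map (Int.castRingHom K)).toAffine.Nonsingular (x : K) (y : K)) :
    up K m (Affine.Point.some x y (ns_up h)) = Affine.Point.some (x : K) (y : K) h := rfl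

/-- the conjugation on the points -/
noncomputable def cjP (m' : ℤ) (h : Qd m K r) (hm : Squarefree m) (h1 : m ≠ 1) :
    ((Em m').map (Int.castRingHom K)).toAffine.Point →+
      ((Em m').map (Int.castRingHom K)).toAffine.Point :=
  Affine.Point.map (W' := Em m') (S := ℚ) (F := K) (K := K) (cj h hm h1).toRatAlgHom

lemma cjP_cjP (m' : ℤ) (h : Qd m K r) (hm : Squarefree m) (h1 : m ≠ 1)
    (P : ((Em m').map (Int.castRingHom K)).toAffine.Point) :
    cjP m' h hm h1 (cjP m' h hm h1 P) = P := by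
  rcases P with _ | ⟨x, y, hP⟩
  · rfl
  · have e : cjP m' h hm h1 (cjP m' h hm h1 (Affine.Point.some x y hP)) =
      Affine.Point.some (cj h hm h1 (cj h hm h1 x)) (cj h hm h1 (cj h hm h1 y))
        (by rw [cj_cj, cj_cj]; exact hP) := rfl
    rw [e]
    congr 1
    · exact cj_cj h hm h1 x
    · exact cj_cj h hm h1 y

lemma fix_up (m' : ℤ) (h : Qd m K r) (hm : Squarefree m) (h1 : m ≠ 1)
    (P : ((Em m').map (Int.castRingHom K)).toAffine.Point) (hP : cjP m' h hm h1 P = P) :
    ∃ Q, P = up K m' Q := by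
  rcases P with _ | ⟨x, y, hxy⟩
  · exact ⟨0, rfl⟩
  · have e : cjP m' h hm h1 (Affine.Point.some x y hxy) =
      Affine.Point.some (cj h hm h1 x) (cj h hm h1 y) ((Affine.baseChange_nonsingular (W := Em m') (S := ℚ)
        (A := K) (B := K) (f := (cj h hm h1).toRatAlgHom) (RingHom.injective _) x y).2 hxy) := rfl
    rw [e] at hP
    injection hP with e1 e2
    obtain ⟨a, rfl⟩ := cj_fix h hm h1 e1
    obtain ⟨b, rfl⟩ := cj_fix h hm h1 e2
    exact ⟨_, (up_some hxy).symm⟩

/-- the isomorphism with the twist -/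
lemma vrT (h : Qd m K r) (hm : m ≠ 0) : VR ((Em m).map (Int.castRingHom K))
    ((Em 1).map (Int.castRingHom K)) r 0 0 0 := by
  have hr := h.hr
  refine ⟨?_, ?_, ?_, ?_, ?_, ?_⟩
  · rintro rfl
    rw [zero_pow two_ne_zero] at hr
    exact hm (by exact_mod_cast hr.symm)
  · simp [Em]
  · simp [Em, hr, mul_comm]
  · simp [Em]
  · have : r ^ 4 = (m : K) ^ 2 := by rw [← hr]; ring
    simp [Em, this]
    ring
  · simp [Em]

/-- the twisted points -/
lemma anti_up (h : Qd m K r) (hm : Squarefree m) (h1 : m ≠ 1)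
    (hD : ((Em 1).map (Int.castRingHom K)).Δ ≠ 0)
    (P : ((Em 1).map (Int.castRingHom K)).toAffine.Point) (hP : cjP 1 h hm h1 P = -P) :
    ∃ Q, (vrT h hm.ne_zero).equiv hD P = up K m Q := by
  rcases P with _ | ⟨x, y, hxy⟩
  · exact ⟨0, map_zero _⟩
  · have e : cjP 1 h hm h1 (Affine.Point.some x y hxy) =
      Affine.Point.some (cj h hm h1 x) (cj h hm h1 y) ((Affine.baseChange_nonsingular (W := Em 1) (S := ℚ)
        (A := K) (B := K) (f := (cj h hm h1).toRatAlgHom) (RingHom.injective _) x y).2 hxy) := rfl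
    rw [e, Affine.Point.neg_some] at hP
    injection hP with e1 e2
    obtain ⟨a, rfl⟩ := cj_fix h hm h1 e1
    have e3 : cj h hm h1 y = -y := by
      rw [e2, Affine.negY]
      simp [Em]
    obtain ⟨b, rfl⟩ := cj_neg h hm h1 e3
    have hr := h.hr
    rw [VR.equiv_apply, VR.fn_some]
    have k1 : r ^ 2 * (a : K) + 0 = ((m * a : ℚ) : K) := by
      rw [hr]; push_cast; ring
    have k2 : r ^ 3 * ((b : K) * r) + r ^ 2 * 0 * (a : K) + 0 = ((m ^ 2 * b : ℚ) : K) := by
      have : r ^ 3 * ((b : K) * r) = (r ^ 2) ^ 2 * b := by ring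
      rw [this, hr]; push_cast; ring
    have hns : ((Em m).map (Int.castRingHom K)).toAffine.Nonsingular ((m * a : ℚ) : K)
        ((m ^ 2 * b : ℚ) : K) := by
      rw [← k1, ← k2]
      exact Pool.Agent.Y700.nonsing ((vrT h hm.ne_zero).delta_ne hD)
        ((vrT h hm.ne_zero).eqn.2 hxy.1)
    refine ⟨_, Eq.trans ?_ (up_some hns).symm⟩
    congr 1

/-- **There is no nonzero point of odd order.** -/
theorem no_oddK (h : Qd m K r) (hm : Squarefree m) (h1 : m ≠ 1)
    (P : ((Em 1).map (Int.castRingHom K)).toAffine.Point) {N : ℕ} (hN : Odd N) (hP : N • P = 0) :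
    P = 0 := by
  have hD : ((Em 1).map (Int.castRingHom K)).Δ ≠ 0 := by
    have e : (Em 1).map (Int.castRingHom K) = (EQm 1).map (algebraMap ℚ K) := by
      ext <;> simp [Em]
    rw [e, map_Δ]
    exact (map_ne_zero _).2 (Em_delta_ne one_ne_zero)
  -- the trace
  have ht : P + cjP 1 h hm h1 P = 0 := by
    obtain ⟨Q, hQ⟩ := fix_up 1 h hm h1 (P + cjP 1 h hm h1 P) (by
      rw [map_add, cjP_cjP, add_comm])
    have hNQ : N • (P + cjP 1 h hm h1 P) = 0 := by
      rw [nsmul_add, ← map_nsmul, hP, map_zero, add_zero]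
    rw [hQ, ← map_nsmul] at hNQ
    have h3 : N • Q = 0 := up_inj K 1 (by rw [hNQ, map_zero])
    rw [hQ, no_odd squarefree_one Q hN h3, map_zero]
  have ht' : cjP 1 h hm h1 P = -P := by
    rw [eq_neg_iff_add_eq_zero, add_comm]
    exact ht
  obtain ⟨Q, hQ⟩ := anti_up h hm h1 hD P ht'
  have hNQ : N • up K m Q = 0 := by
    rw [← hQ, ← map_nsmul, hP, map_zero]
  rw [← map_nsmul] at hNQ
  have h3 : N • Q = 0 := up_inj K m (by rw [hNQ, map_zero])
  rw [no_odd hm Q hN h3, map_zero] at hQ
  exact (EmbeddingLike.map_eq_zero_iff).1 hQ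

end odd

lemma isRK (K : Type) [Field K] : IsR ((Em 1).map (Int.castRingHom K)) (0 : K) (-1) 16 := by
  refine ⟨?_, ?_, ?_, ?_, ?_⟩ <;> simp [Em] <;> ring

/-- K17-TOR -/
theorem t_TOR : S_TOR := by
  intro m hm h1 h2 h17 K _ _ r h
  have hR := isRK K
  have h2K : (2 : K) ≠ 0 := two_ne_zero
  have hab : (0 : K) ≠ -1 := by norm_num
  have hac : (0 : K) ≠ 16 := by norm_num
  have hbc : (-1 : K) ≠ 16 := by norm_num
  have hfin : Finite (AddCommGroup.torsion ((Em 1).map (Int.castRingHom K)).toAffine.Point) :=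
    finite_tors (fg_of hR hab hac hbc)
  have h4 : (1 : ℤ) % 4 = 1 := by norm_num
  let e := torsEquiv ((vr h4 K).equiv (WN_Δ_ne h4 K))
  have hcard : Nat.card (AddCommGroup.torsion (base (WN 1) K).toAffine.Point) =
      Nat.card (AddCommGroup.torsion ((Em 1).map (Int.castRingHom K)).toAffine.Point) :=
    Nat.card_congr e
  refine ⟨Finite.of_equiv _ e.symm, ?_⟩
  rw [hcard]
  obtain ⟨t, ht, he⟩ : ∃ t : ℕ, Odd t ∧
      Nat.card (AddCommGroup.torsion ((Em 1).map (Int.castRingHom K)).toAffine.Point) = 4 * t := by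
    refine card_four (two_card hR h2K hab hac hbc) ?_
    rintro ⟨P, hP⟩ h5
    apply Subtype.ext
    show P + P = 0
    by_contra hne
    have h6 : (P + P) + (P + P) = 0 := congrArg Subtype.val h5
    obtain ⟨e', he', s1, s2, s3⟩ := four_cases hR h2K P h6 hne
    have key : ∀ (k x : K), k ≠ 0 → IsSquare (k * k * x) → IsSquare x := by
      rintro k x hk ⟨z, hz⟩
      refine ⟨z / k, ?_⟩
      field_simp
      linear_combination hz
    rcases he' with rfl | rfl | rfl
    · apply neg_one_not_sq h hm h1 h2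
      apply key 4 _ (by norm_num)
      have e1 : (4 : K) * 4 * -1 = 0 - 16 := by norm_num
      rw [e1]
      exact s3
    · apply neg_one_not_sq h hm h1 h2
      have e1 : (-1 : K) = -1 - 0 := by norm_num
      rw [e1]
      exact s1
    · apply sq17 h hm h1 h17
      have e1 : (17 : K) = 16 - (-1) := by norm_num
      rw [e1]
      exact s2
  by_cases ht1 : t = 1
  · rw [he, ht1]
  exfalso
  obtain ⟨l, hl, hlt⟩ := Nat.exists_prime_and_dvd ht1
  have hl2 : Odd l := by
    obtain ⟨c, rfl⟩ := hlt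
    exact (Nat.odd_mul.1 ht).1
  haveI := Fact.mk hl
  obtain ⟨x, hx⟩ := exists_prime_addOrderOf_dvd_card' (G := AddCommGroup.torsion
    ((Em 1).map (Int.castRingHom K)).toAffine.Point) l (by
      rw [he]
      exact hlt.mul_left 4)
  have h7 : l • x = 0 := by
    rw [← hx]
    exact addOrderOf_nsmul_eq_zero x
  have h3 : l • (x : ((Em 1).map (Int.castRingHom K)).toAffine.Point) = 0 := congrArg Subtype.val h7
  have h5 := no_oddK h hm h1 _ hl2 h3
  have h6 : x = 0 := Subtype.ext h5
  rw [h6, addOrderOf_zero] at hx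
  exact hl.one_lt.ne hx

end Pool.Agent.N849.K17
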